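import Mathlib

/-!
# The permutation pattern poset: order complexes of intervals and the Moebius function
-/

set_option autoImplicit false

namespace Pool.Agent.Q167.Perm

/-- `l` is a permutation of `{1, …, n}` in one-line notation, `n` being the length of `l`. -/
def IsPerm (l : List ℕ) : Prop := l.Perm (List.range' 1 l.length)

instance (l : List ℕ) : Decidable (IsPerm l) := by unfold IsPerm; infer_instance

/-- the word of ranks of a word with distinct entries: every entry is replaced by the number of
entries that are at most as large.  It is the permutation in the same relative order. -/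
def std (l : List ℕ) : List ℕ := l.map fun a => (l.filter fun b => decide (b ≤ a)).length

/-- the set of all `σ` contained in `π` as patterns: those that are in the same relative order as
some subsequence of `π` -/
def patterns (π : List ℕ) : Finset (List ℕ) := (π.sublists.map std).toFinset

/-- pattern containment `σ ≤ π` -/
def Le (σ π : List ℕ) : Prop := σ ∈ patterns π

instance (σ π : List ℕ) : Decidable (Le σ π) := by unfold Le; infer_instance

/-- the closed interval `[σ, π]` -/
def interval (σ π : List ℕ) : Finset (List ℕ) := (patterns π).filter fun τ => Le σ τ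

/-- `μ` is the Moebius function of the poset of permutations. -/
def IsMoebius (μ : List ℕ → List ℕ → ℤ) : Prop :=
  ∀ σ π, IsPerm σ → IsPerm π → Le σ π →
    μ σ π = if σ = π then 1 else - ∑ τ ∈ (interval σ π).erase π, μ σ τ

/-- `F` is a face of the order complex of the set `V` of permutations: a finite chain of elements
of `V` -/
def IsFace (V : Set (List ℕ)) (F : Finset (List ℕ)) : Prop :=
  (∀ τ ∈ F, τ ∈ V) ∧ ∀ a ∈ F, ∀ b ∈ F, Le a b ∨ Le b a

/-- `F` is a maximal face -/
def IsFacet (V : Set (List ℕ)) (F : Finset (List ℕ)) : Prop :=
  IsFace V F ∧ ∀ F', IsFace V F' → F ⊆ F' → F' = F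

/-- all maximal faces have the same dimension -/
def IsPure (V : Set (List ℕ)) : Prop :=
  ∀ F F', IsFacet V F → IsFacet V F' → F.card = F'.card

/-- the elements `τ` of the open interval `(σ, π)` with `μ(σ, τ) = 0` -/
def zeroVerts (μ : List ℕ → List ℕ → ℤ) (σ π : List ℕ) : Set (List ℕ) :=
  {τ | τ ∈ interval σ π ∧ τ ≠ σ ∧ τ ≠ π ∧ μ σ τ = 0}

/-- the elements `τ` of the open interval `(σ, π)` with `μ(σ, τ) ≠ 0` -/
def nonzeroVerts (μ : List ℕ → List ℕ → ℤ) (σ π : List ℕ) : Set (List ℕ) :=
  {τ | τ ∈ interval σ π ∧ τ ≠ σ ∧ τ ≠ π ∧ μ σ τ ≠ 0}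

lemma std_length (l : List ℕ) : (std l).length = l.length := by simp [std]

lemma length_le_of_mem {σ π : List ℕ} (h : σ ∈ patterns π) : σ.length ≤ π.length := by
  unfold patterns at h
  rw [List.mem_toFinset, List.mem_map] at h
  obtain ⟨s, hs, rfl⟩ := h
  rw [List.mem_sublists] at hs
  rw [std_length]
  exact hs.length_le

lemma std_range' (n : ℕ) (l : List ℕ) (h : l.Perm (List.range' 1 n)) : std l = l := by
  unfold std
  conv_rhs => rw [← List.map_id l]
  apply List.map_congr_left
  intro a ha
  have h1 : (l.filter fun b => decide (b ≤ a)).length =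
      ((List.range' 1 n).filter fun b => decide (b ≤ a)).length := (h.filter _).length_eq
  rw [h1]
  have h2 : a ∈ List.range' 1 n := h.mem_iff.1 ha
  rw [List.mem_range'_1] at h2
  have h3 : ∀ m, a ≤ m → 1 ≤ a → ((List.range' 1 m).filter fun b => decide (b ≤ a)).length = a := by
    intro m
    induction m with
    | zero => intro h4 h5; omega
    | succ m ih =>
      intro h4 h5
      rw [List.range'_concat, List.filter_append, List.length_append]
      by_cases h6 : a ≤ m
      · rw [ih h6 h5]
        have h7 : ([1 + 1 * m].filter fun b => decide (b ≤ a)) = [] := by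
          rw [List.filter_cons_of_neg (by simp; omega), List.filter_nil]
        rw [h7]; simp
      · have h7 : a = m + 1 := by omega
        have h8 : ((List.range' 1 m).filter fun b => decide (b ≤ a)) = List.range' 1 m := by
          rw [List.filter_eq_self]
          intro b hb
          rw [List.mem_range'_1] at hb
          simp; omega
        have h9 : ([1 + 1 * m].filter fun b => decide (b ≤ a)) = [1 + 1 * m] := by
          rw [List.filter_cons_of_pos (by simp; omega), List.filter_nil]
        rw [h8, h9]
        simp; omega
  rw [h3 n (by omega) (by omega)]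
  rfl

lemma self_mem_patterns {π : List ℕ} (h : IsPerm π) : π ∈ patterns π := by
  unfold patterns
  rw [List.mem_toFinset, List.mem_map]
  exact ⟨π, by simp, std_range' _ π h⟩

lemma length_lt_of_mem {τ π : List ℕ} (hπ : IsPerm π) (h : τ ∈ patterns π) (hne : τ ≠ π) :
    τ.length < π.length := by
  refine lt_of_le_of_ne (length_le_of_mem h) fun he => hne ?_
  unfold patterns at h
  rw [List.mem_toFinset, List.mem_map] at h
  obtain ⟨s, hs, rfl⟩ := h
  rw [List.mem_sublists] at hs
  rw [std_length] at he
  rw [hs.eq_of_length he]
  exact std_range' _ π hπ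

/-- the Moebius function, by recursion on the number `k` of steps -/
def mobAux : ℕ → List ℕ → List ℕ → ℤ
  | 0, _, _ => 0
  | k + 1, σ, π => if σ = π then 1 else - ∑ τ ∈ (interval σ π).erase π, mobAux k σ τ

/-- the Moebius function -/
def mob (σ π : List ℕ) : ℤ := mobAux (π.length + 1) σ π

lemma isPerm_of_mem {τ π : List ℕ} (hπ : IsPerm π) (h : τ ∈ patterns π) : IsPerm τ := by
  unfold patterns at h
  rw [List.mem_toFinset, List.mem_map] at h
  obtain ⟨s, hs, rfl⟩ := h
  rw [List.mem_sublists] at hs
  have hnd : s.Nodup := by
    have : π.Nodup := hπ.nodup_iff.2 (List.nodup_range' )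
    exact this.sublist hs
  unfold IsPerm
  rw [std_length]
  -- the ranks are injective and lie in `[1, n]`
  have hinj : ∀ a ∈ s, ∀ b ∈ s, a < b →
      (s.filter fun c => decide (c ≤ a)).length < (s.filter fun c => decide (c ≤ b)).length := by
    intro a ha b hb hab
    have h1 : (s.filter fun c => decide (c ≤ a)).Sublist (s.filter fun c => decide (c ≤ b)) := by
      apply List.monotone_filter_right
      intro c hc
      simp only [decide_eq_true_eq] at hc ⊢
      omega
    refine lt_of_le_of_ne h1.length_le fun he => ?_
    have h2 := h1.eq_of_length he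
    have h3 : b ∈ s.filter fun c => decide (c ≤ b) := by simp [hb]
    rw [← h2] at h3
    simp at h3
    omega
  have hnd2 : (std s).Nodup := by
    unfold std
    refine List.Nodup.map_on ?_ hnd
    intro a ha b hb hab
    rcases lt_trichotomy a b with h | h | h
    · exact absurd hab (hinj a ha b hb h).ne
    · exact h
    · exact absurd hab (hinj b hb a ha h).ne'
  have hsub : std s ⊆ List.range' 1 s.length := by
    intro x hx
    unfold std at hx
    rw [List.mem_map] at hx
    obtain ⟨a, ha, rfl⟩ := hx
    rw [List.mem_range'_1]
    constructor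
    · apply List.length_pos_of_mem (a := a)
      simp [ha]
    · have := List.length_filter_le (fun b => decide (b ≤ a)) s
      omega
  have hsp := List.subperm_of_subset hnd2 hsub
  exact hsp.perm_of_length_le (by simp [std_length])

lemma mobAux_eq (σ : List ℕ) : ∀ n : ℕ, ∀ π : List ℕ, π.length = n → IsPerm π →
    ∀ k, n < k → mobAux k σ π = mob σ π := by
  intro n
  induction n using Nat.strong_induction_on with
  | _ n ih =>
    intro π hn hπ k hk
    obtain ⟨k, rfl⟩ : ∃ k', k = k' + 1 := ⟨k - 1, by omega⟩
    unfold mob
    simp only [mobAux]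
    split_ifs with h
    · rfl
    · congr 1
      refine Finset.sum_congr rfl fun τ hτ => ?_
      rw [Finset.mem_erase] at hτ
      have h2 : τ ∈ patterns π := (Finset.mem_filter.1 hτ.2).1
      have h3 := length_lt_of_mem hπ h2 hτ.1
      have h4 := isPerm_of_mem hπ h2
      rw [ih τ.length (by omega) τ rfl h4 k (by omega),
        ih τ.length (by omega) τ rfl h4 π.length (by omega)]

/-- The Moebius function exists. -/
theorem isMoebius_mob : IsMoebius mob := by
  intro σ π _ hπ _
  conv_lhs => unfold mob
  simp only [mobAux]
  split_ifs with h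
  · rfl
  · congr 1
    refine Finset.sum_congr rfl fun τ hτ => ?_
    rw [Finset.mem_erase] at hτ
    have h2 : τ ∈ patterns π := (Finset.mem_filter.1 hτ.2).1
    have h3 := length_lt_of_mem hπ h2 hτ.1
    have h4 := isPerm_of_mem hπ h2
    exact mobAux_eq σ τ.length τ rfl h4 π.length h3

end Pool.Agent.Q167.Perm
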